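import Pool.Agent.Helper3_PPZ.Stmts

/-!
Module KUM of the squad PPZ: powers in the base field.
-/

set_option autoImplicit false

universe u

namespace Pool.Agent.PPZ.H90

open Pool.Agent.PPZ Polynomial

theorem kum : KumStmt.{u} := by
  intro F K _ _ _ _ y d B hd hy hζ hc hG
  obtain ⟨c, hc⟩ := hc
  obtain ⟨G, hG0, hGB, hGy⟩ := hG
  have hint : IsIntegral F y := by
    refine IsIntegral.of_pow hd ?_
    rw [← hc]
    exact isIntegral_algebraMap
  have hmonic := minpoly.monic hint
  have hdvd : minpoly F y ∣ G := minpoly.dvd F y hGy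
  have hdvd2 : minpoly F y ∣ X ^ d - C c := by
    apply minpoly.dvd
    simp [hc]
  have hpos : 0 < (minpoly F y).natDegree := minpoly.natDegree_pos hint
  refine ⟨(minpoly F y).natDegree, hpos, (natDegree_le_of_dvd hdvd hG0).trans hGB, ?_⟩
  set f : F →+* AlgebraicClosure K := algebraMap F (AlgebraicClosure K) with hf
  set p : (AlgebraicClosure K)[X] := (minpoly F y).map f with hp
  have hpm : p.Monic := hmonic.map f
  have hps : p.Splits := IsAlgClosed.splits p
  have h1 := hps.coeff_zero_eq_prod_roots_of_monic hpm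
  have hcard := hps.natDegree_eq_card_roots
  have hdeg : p.natDegree = (minpoly F y).natDegree := natDegree_map _
  set z : AlgebraicClosure K := algebraMap K (AlgebraicClosure K) y with hz
  have hz0 : z ≠ 0 := by
    rw [hz, Ne, map_eq_zero]
    exact hy
  have hzd : z ^ d = f c := by
    rw [hz, ← map_pow, ← hc, hf, ← IsScalarTower.algebraMap_apply]
  -- every root is `z` times an element of `F`
  have hroots : ∀ r ∈ p.roots, ∃ a : F, f a * z = r := by
    intro r hr
    have h2 : p.IsRoot r := (mem_roots hpm.ne_zero).1 hr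
    have h3 : eval₂ f r (X ^ d - C c) = 0 := by
      obtain ⟨q, hq⟩ := hdvd2
      rw [hq, eval₂_mul]
      have h4 : eval₂ f r (minpoly F y) = 0 := by
        have h5 : p.eval r = 0 := h2
        rwa [hp, eval_map] at h5
      rw [h4, zero_mul]
    have h4 : r ^ d = f c := by
      rw [eval₂_sub, eval₂_X_pow, eval₂_C, sub_eq_zero] at h3
      exact h3
    have h5 : (r / z) ^ d = 1 := by
      rw [div_pow, h4, hzd]
      refine div_self ?_
      rw [← hzd]
      exact pow_ne_zero _ hz0
    obtain ⟨a, ha⟩ := hζ _ h5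
    exact ⟨a, by rw [hf, ha, div_mul_cancel₀ _ hz0]⟩
  have hprod : ∀ s : Multiset (AlgebraicClosure K), (∀ r ∈ s, ∃ a : F, f a * z = r) →
      ∃ a : F, f a * z ^ (Multiset.card s) = s.prod := by
    intro s
    induction s using Multiset.induction_on with
    | empty => exact fun _ => ⟨1, by simp⟩
    | cons r s ih =>
      intro h
      obtain ⟨a, ha⟩ := ih fun r' hr' => h r' (Multiset.mem_cons_of_mem hr')
      obtain ⟨b, hb⟩ := h r (Multiset.mem_cons_self r s)
      refine ⟨b * a, ?_⟩
      rw [Multiset.prod_cons, ← hb, ← ha, Multiset.card_cons, map_mul]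
      ring
  obtain ⟨a, ha⟩ := hprod _ hroots
  rw [← hcard, hdeg] at ha
  rw [← ha, hdeg] at h1
  have h2 : p.coeff 0 = f ((minpoly F y).coeff 0) := by rw [hp, coeff_map]
  rw [h2] at h1
  have h3 : (minpoly F y).coeff 0 ≠ 0 := minpoly.coeff_zero_ne_zero hint hy
  have ha0 : a ≠ 0 := by
    rintro rfl
    rw [map_zero, zero_mul, mul_zero] at h1
    exact h3 ((map_eq_zero f).1 h1)
  refine ⟨(-1) ^ (minpoly F y).natDegree * (minpoly F y).coeff 0 * a⁻¹, ?_⟩
  apply (algebraMap K (AlgebraicClosure K)).injective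
  rw [← IsScalarTower.algebraMap_apply F K (AlgebraicClosure K), map_pow]
  change f _ = z ^ _
  rw [map_mul, map_mul, h1, map_inv₀, map_pow, map_neg, map_one]
  have h4 : f a ≠ 0 := by
    rw [Ne, map_eq_zero]
    exact ha0
  have h5 : ((-1 : AlgebraicClosure K) ^ (minpoly F y).natDegree) *
      ((-1) ^ (minpoly F y).natDegree) = 1 := by
    rw [← mul_pow]
    simp
  field_simp
  linear_combination h5

end Pool.Agent.PPZ.H90
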